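import Pool.Agent.helper24.IC.Spec

/-!
# Row `ic:UPT` (MP_337222_al)
-/

set_option autoImplicit false

namespace Pool.Agent.IC

universe u

theorem UPT_reg (hREG : REG_stmt.{u}) (R : Type u) [Ring R] (hR : Chain R) (x : R) : ∃ y, x * y * x = x := by
  obtain ⟨S, -, hall, hss⟩ := hR
  obtain ⟨n, hn⟩ := hall x
  haveI := hss n
  obtain ⟨y, hy⟩ := hREG (S n) ⟨x, hn⟩
  refine ⟨(y : R), ?_⟩
  have h1 := congrArg Subtype.val hy
  exact h1

theorem UPT (hHUL : HUL_stmt.{u}) (hPIN : PIN_stmt.{u}) (hREG : REG_stmt.{u}) : UPT_stmt.{u} := by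
  intro R _ hR J L hJ hJL h1L hUni
  obtain ⟨E, iE, mE, f, hf, hess, hspl⟩ := hHUL R (R ⧸ L)
  obtain ⟨v, hv⟩ : ∃ v : E, v = f (Submodule.Quotient.mk 1) := ⟨_, rfl⟩
  have hmk : ∀ r : R, r • v = f (Submodule.Quotient.mk r) := by
    intro r
    rw [hv, ← map_smul, ← Submodule.Quotient.mk_smul, smul_eq_mul, mul_one]
  have hann : ∀ r : R, r • v = 0 ↔ r ∈ L := by
    intro r
    rw [hmk r, map_eq_zero_iff f hf, Submodule.Quotient.mk_eq_zero]
  have hran : ∀ y ∈ LinearMap.range f, ∃ s : R, y = s • v := by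
    rintro y ⟨w, rfl⟩
    obtain ⟨s, rfl⟩ := Submodule.Quotient.mk_surjective L w
    exact ⟨s, (hmk s).symm⟩
  have hmeet : ∀ K : Submodule R E, K ≠ ⊥ → ∃ s : R, s • v ∈ K ∧ s • v ≠ 0 := by
    intro K hK
    obtain ⟨y, hy, hy0⟩ := Submodule.exists_mem_ne_zero_of_ne_bot (hess K hK)
    obtain ⟨s, hs⟩ := hran y (Submodule.mem_inf.1 hy).2
    exact ⟨s, by rw [← hs]; exact (Submodule.mem_inf.1 hy).1, by rw [← hs]; exact hy0⟩
  have hlast : ∀ x : E, x ≠ 0 → ∃ r s : R, r • x ≠ 0 ∧ r • x = s • v := by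
    intro x hx
    obtain ⟨s, hs, hs0⟩ := hmeet (Submodule.span R {x}) (by
      rw [Ne, Submodule.span_singleton_eq_bot]
      exact hx)
    obtain ⟨r, hr⟩ := Submodule.mem_span_singleton.1 hs
    exact ⟨r, s, by rw [hr]; exact hs0, hr⟩
  refine ⟨E, iE, mE, v, ⟨hPIN R hR E hspl, ?_, ?_⟩, ?_, hann, hlast⟩
  · refine ⟨v, 0, fun h0 => h1L ?_⟩
    have h2 := (hann 1).1 (by rw [one_smul]; exact h0)
    exact h2
  · intro A B hAB
    by_contra hcon
    rw [not_or] at hcon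
    obtain ⟨s, hsA, hs0⟩ := hmeet A hcon.1
    obtain ⟨t, htB, ht0⟩ := hmeet B hcon.2
    obtain ⟨r, r', h3, h4⟩ := hUni s t (fun h => hs0 ((hann s).2 h)) (fun h => ht0 ((hann t).2 h))
    have h5 : (r * s) • v = (r' * t) • v := by
      have h6 := (hann _).2 h4
      rw [sub_smul, sub_eq_zero] at h6
      exact h6
    have h7 : (r * s) • v ∈ A := by
      rw [mul_smul]
      exact A.smul_mem r hsA
    have h8 : (r * s) • v ∈ B := by
      rw [h5, mul_smul]
      exact B.smul_mem r' htB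
    have h9 := Submodule.disjoint_def.1 hAB.disjoint _ h7 h8
    exact h3 ((hann _).1 h9)
  · intro j hj x
    by_contra hcon
    obtain ⟨r, s, hne, heq⟩ := hlast (j • x) hcon
    obtain ⟨z, hz⟩ := UPT_reg hREG R hR (r * j)
    have hjJ : r * j ∈ J := J.mul_mem_left r hj
    have h2 : (r * j) • x = s • v := by
      rw [mul_smul]
      exact heq
    have h3 : (r * j) • x = 0 := by
      calc (r * j) • x = ((r * j) * z * (r * j)) • x := by rw [hz]
        _ = ((r * j) * z) • ((r * j) • x) := by rw [mul_smul]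
        _ = ((r * j) * z) • (s • v) := by rw [h2]
        _ = ((r * j) * z * s) • v := by rw [mul_smul ((r * j) * z) s v]
        _ = 0 := (hann _).2 (hJL (hJ _ (hJ _ hjJ z) s))
    apply hne
    rw [← mul_smul]
    exact h3

end Pool.Agent.IC
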